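import Pool.Agent.Lib.MP_fd77c3_pr.Main

/-!
Brownian motion among moving traps: in dimension `d ≥ 3` the annealed survival exponent is
strictly larger than the exponent `lam * κ` of the motionless particle.
-/

open MeasureTheory ProbabilityTheory Filter Topology
open scoped ENNReal NNReal

open Pool.Agent.Lib.MP_fd77c3_pr

namespace Pool.Agent.Results.MP_fd77c3_pr.StrictExponent

/-- For every `d ≥ 3`, every intensity `lam > 0` and every trap radius `a > 0`: the limit `κ` of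
the expected volume of the Wiener sausage divided by the time exists and is finite, the annealed
probability that the particle survives up to time `t` is at most `exp (-(lam * κ + c) * t)` for
some `c > 0` and all large `t`, and hence every limit of `-(log P(T > t)) / t` exceeds
`lam * κ`. -/
theorem result {d : ℕ} (hd : 3 ≤ d) {lam a : ℝ} (hlam : 0 < lam) (ha : 0 < a)
    {Ω : Type*} [MeasurableSpace Ω] {P : Measure Ω} [IsProbabilityMeasure P]
    {X : ℝ≥0 → Ω → Eu d} {x : ℕ → Ω → Eu d} {Y : ℕ → ℝ≥0 → Ω → Eu d}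
    (h : IsTrapModel P lam X x Y)
    {Ω' : Type*} [MeasurableSpace Ω'] {P' : Measure Ω'} [IsProbabilityMeasure P']
    {B : ℝ≥0 → Ω' → Eu d} (hB : IsBM P' B) :
    ∃ κ : ℝ≥0,
      Tendsto (fun t : ℝ≥0 =>
        (∫⁻ ω, volume (⋃ s ∈ Set.Iic t, Metric.ball (B s ω) a) ∂P') / t) atTop
        (𝓝 (κ : ℝ≥0∞)) ∧
      (∃ c : ℝ, 0 < c ∧ ∀ᶠ t : ℝ≥0 in atTop, P {ω | (t : ℝ≥0∞) < hitTime a X x Y ω}
        ≤ ENNReal.ofReal (Real.exp (-((lam * κ + c) * t)))) ∧
      ∀ ℓ : EReal, Tendsto (fun t : ℝ≥0 =>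
          -(ENNReal.log (P {ω | (t : ℝ≥0∞) < hitTime a X x Y ω})) / ((t : ℝ) : EReal))
          atTop (𝓝 ℓ) →
        ((lam * κ : ℝ) : EReal) < ℓ := by
  obtain ⟨κ, hκ⟩ := sausage_limit (by omega) hB ha
  obtain ⟨c, hc, hbound⟩ := main_bound hd hlam ha h hB hκ
  exact ⟨κ, hκ, ⟨c, hc, hbound⟩, fun ℓ hℓ => limit_of_bound hc hbound ℓ hℓ⟩

end Pool.Agent.Results.MP_fd77c3_pr.StrictExponent
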